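import Pool.Agent.TeamU.TowerFinal
import Pool.Agent.TeamU.G9
import Pool.Agent.H118R2.Gap7

set_option autoImplicit false
open Finset

/-! MP_cf6fa9_co, Q1 in full, in the stronger form `D(n) ≥ n ^ (1 + c)` for all large `n`.
The plane is `ℂ` with the Euclidean distance `dist z w = ‖z - w‖`.  The point sets come from the
library theorem `H118R2.gap_of_towerS`. -/

namespace Pool.Agent.Results.MP_cf6fa9_co.DistanceGap

open Classical in
/-- multiplicity of the distance `d` in the point set `X`: the number of unordered pairs of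
distinct points of `X` at distance `d`, that is, half the number of ordered pairs -/
noncomputable def mult (X : Finset ℂ) (d : ℝ) : ℕ :=
  (X.offDiag.filter (fun p => dist p.1 p.2 = d)).card / 2

open Classical in
/-- the finite set of the distances between distinct points of `X` -/
noncomputable def distances (X : Finset ℂ) : Finset ℝ :=
  X.offDiag.image (fun p => dist p.1 p.2)

/-- the list of the multiplicities of the distances of `X`, in non-increasing order -/
noncomputable def multList (X : Finset ℂ) : List ℕ :=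
  ((distances X).val.map (mult X)).sort (· ≥ ·)

/-- `a X k` is `a_k(X)`, the `k`-th largest multiplicity (`k ≥ 1`), and `0` if there are fewer
than `k` distances -/
noncomputable def a (X : Finset ℂ) (k : ℕ) : ℕ := (multList X).getD (k - 1) 0

/-- `D n` is the maximum of `a_1(X) - a_2(X)` over all `n`-point sets `X` of the plane -/
noncomputable def D (n : ℕ) : ℕ := sSup {g : ℕ | ∃ X : Finset ℂ, X.card = n ∧ g = a X 1 - a X 2}

theorem two_mult (X : Finset ℂ) (d : ℝ) : 2 * mult X d =
    (X.offDiag.filter (fun p => dist p.1 p.2 = d)).card := by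
  classical
  unfold mult
  apply Nat.mul_div_cancel'
  apply even_iff_two_dvd.1
  rw [← ZMod.natCast_eq_zero_iff_even]
  have h := Finset.sum_involution (s := X.offDiag.filter (fun p => dist p.1 p.2 = d))
    (f := fun _ => (1 : ZMod 2)) (fun p _ => p.swap)
    (by intro p hp; decide)
    (by
      intro p hp _ h
      have h1 := (mem_offDiag.1 (mem_filter.1 hp).1).2.2
      apply h1
      have := congrArg Prod.fst h
      simpa using this.symm)
    (by
      intro p hp
      obtain ⟨h1, h2⟩ := mem_filter.1 hp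
      obtain ⟨h3, h4, h5⟩ := mem_offDiag.1 h1
      refine mem_filter.2 ⟨mem_offDiag.2 ⟨h4, h3, h5.symm⟩, ?_⟩
      simp only [Prod.fst_swap, Prod.snd_swap]
      rw [dist_comm]; exact h2)
    (by intro p hp; simp)
  simpa using h

theorem om_eq (X : Finset ℂ) (d : ℝ) (hd : 0 < d) : H118R2.mult X d = 2 * mult X d := by
  classical
  rw [two_mult]
  unfold H118R2.mult
  congr 1
  ext ⟨x, y⟩
  simp only [mem_filter, mem_product, mem_offDiag]
  constructor
  · rintro ⟨⟨hx, hy⟩, h⟩
    refine ⟨⟨hx, hy, ?_⟩, h⟩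
    rintro rfl
    simp at h
    exact hd.ne h
  · rintro ⟨⟨hx, hy, _⟩, h⟩
    exact ⟨⟨hx, hy⟩, h⟩

theorem mult_le (X : Finset ℂ) (d : ℝ) : mult X d ≤ X.card * X.card := by
  classical
  unfold mult
  calc _ ≤ (X.offDiag.filter (fun p => dist p.1 p.2 = d)).card := Nat.div_le_self _ _
    _ ≤ X.offDiag.card := card_filter_le _ _
    _ ≤ X.card * X.card := by rw [offDiag_card]; omega

theorem a_le (X : Finset ℂ) (k : ℕ) : a X k ≤ X.card * X.card := by
  unfold a
  rw [List.getD_eq_getElem?_getD]
  rcases h : (multList X)[k - 1]? with _ | m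
  · simp
  · simp only [Option.getD_some]
    have h1 : m ∈ multList X := List.mem_of_getElem? h
    unfold multList at h1
    rw [Multiset.mem_sort, Multiset.mem_map] at h1
    obtain ⟨d, _, rfl⟩ := h1
    exact mult_le X d

theorem a_gap (X : Finset ℂ) (d0 : ℝ) (hd0 : 0 < d0) (g : ℝ) (hg : 0 < g)
    (h : ∀ d : ℝ, 0 < d → d ≠ d0 → 2 * g ≤ (H118R2.mult X d0 : ℝ) - H118R2.mult X d) :
    g ≤ ((a X 1 - a X 2 : ℕ) : ℝ) := by
  classical
  have hm : ∀ d : ℝ, 0 < d → d ≠ d0 → g ≤ (mult X d0 : ℝ) - mult X d := by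
    intro d hd hdd
    have h1 := h d hd hdd
    rw [om_eq X d0 hd0, om_eq X d hd] at h1
    push_cast at h1
    linarith
  have hm0 : g ≤ (mult X d0 : ℝ) := by
    have h1 := hm (d0 + 1) (by linarith) (by linarith)
    have h2 : (0 : ℝ) ≤ mult X (d0 + 1) := by positivity
    linarith
  have hmem : d0 ∈ distances X := by
    by_contra hcon
    have : mult X d0 = 0 := by
      unfold mult
      have : X.offDiag.filter (fun p => dist p.1 p.2 = d0) = ∅ := by
        rw [filter_eq_empty_iff]
        intro p hp hpd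
        exact hcon (mem_image.2 ⟨p, hp, hpd⟩)
      rw [this]; simp
    rw [this] at hm0
    simp at hm0
    linarith
  have hpos : ∀ d ∈ distances X, 0 < d := by
    intro d hd
    obtain ⟨p, hp, rfl⟩ := mem_image.1 hd
    exact dist_pos.2 (mem_offDiag.1 hp).2.2
  set s' := ((distances X).erase d0).val.map (mult X) with hs'
  have hs : (distances X).val.map (mult X) = mult X d0 ::ₘ s' := by
    rw [hs', ← Multiset.map_cons, ← insert_val_of_notMem (notMem_erase d0 _), insert_erase hmem]
  have hle : ∀ m ∈ s', g ≤ (mult X d0 : ℝ) - m := by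
    intro m hm'
    rw [hs', Multiset.mem_map] at hm'
    obtain ⟨d, hd, rfl⟩ := hm'
    obtain ⟨hd1, hd2⟩ := mem_erase.1 hd
    exact hm d (hpos d hd2) hd1
  have hsort : multList X = mult X d0 :: s'.sort (· ≥ ·) := by
    unfold multList
    rw [hs, Multiset.sort_cons]
    intro b hb
    have h1 := hle b hb
    have h2 : (b : ℝ) ≤ mult X d0 := by linarith
    exact_mod_cast h2
  have ha1 : a X 1 = mult X d0 := by
    unfold a; rw [hsort]; simp
  have ha2 : a X 2 = (s'.sort (· ≥ ·)).getD 0 0 := by
    unfold a; rw [hsort]; simp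
  have ha2' : g ≤ (mult X d0 : ℝ) - (a X 2 : ℝ) := by
    rw [ha2, List.getD_eq_getElem?_getD]
    rcases h' : (s'.sort (· ≥ ·))[0]? with _ | m
    · simpa using hm0
    · simp only [Option.getD_some]
      have h1 : m ∈ s'.sort (· ≥ ·) := List.mem_of_getElem? h'
      rw [Multiset.mem_sort] at h1
      exact hle m h1
  have h3 : a X 2 ≤ a X 1 := by
    rw [ha1]
    have : (a X 2 : ℝ) ≤ mult X d0 := by linarith
    exact_mod_cast this
  rw [Nat.cast_sub h3, ha1]
  exact ha2'

/-- Q1 in full (positive answer), in a stronger form.  The first part records that `mult` is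
exactly half the number of ordered pairs, the second that `D n` is attained (the supremum is a
maximum).  The third part: for one constant `c > 0` and all large `n`,
`n ^ (1 + c / log log n) ≤ n ^ (1 + c) ≤ D n`. -/
theorem result :
    (∀ (X : Finset ℂ) (d : ℝ), 2 * mult X d =
      (X.offDiag.filter (fun p => dist p.1 p.2 = d)).card) ∧
    (∀ n : ℕ, (∃ X : Finset ℂ, X.card = n ∧ D n = a X 1 - a X 2) ∧
      ∀ X : Finset ℂ, X.card = n → a X 1 - a X 2 ≤ D n) ∧
    ∃ c : ℝ, 0 < c ∧ ∃ N : ℕ, ∀ n : ℕ, N ≤ n →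
      (n : ℝ) ^ (1 + c / Real.log (Real.log n)) ≤ (n : ℝ) ^ (1 + c) ∧
      (n : ℝ) ^ (1 + c) ≤ (D n : ℝ) := by
  classical
  have hbdd : ∀ n : ℕ, BddAbove {g : ℕ | ∃ X : Finset ℂ, X.card = n ∧ g = a X 1 - a X 2} := by
    intro n
    refine ⟨n * n, ?_⟩
    rintro g ⟨X, hX, rfl⟩
    have := a_le X 1
    rw [hX] at this
    omega
  have hle : ∀ n : ℕ, ∀ X : Finset ℂ, X.card = n → a X 1 - a X 2 ≤ D n := by
    intro n X hX
    exact le_csSup (hbdd n) ⟨X, hX, rfl⟩
  refine ⟨two_mult, fun n => ⟨?_, hle n⟩, ?_⟩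
  · obtain ⟨X0, hX0⟩ := Infinite.exists_subset_card_eq ℂ n
    have hne : {g : ℕ | ∃ X : Finset ℂ, X.card = n ∧ g = a X 1 - a X 2}.Nonempty :=
      ⟨_, X0, hX0, rfl⟩
    exact Nat.sSup_mem hne (hbdd n)
  · obtain ⟨c, hc, n₀, hn₀, h⟩ := H118R2.gap_of_towerS
      (TeamU.towerS_of TeamU.obstructionBound TeamU.existsL0 TeamU.rankZ1)
    obtain ⟨N1, hN1⟩ : ∃ N1 : ℕ, ∀ n : ℕ, N1 ≤ n → 1 ≤ Real.log (Real.log n) := by
      have ht : Filter.Tendsto (fun n : ℕ => Real.log (Real.log (n : ℝ))) Filter.atTop
          Filter.atTop :=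
        Real.tendsto_log_atTop.comp (Real.tendsto_log_atTop.comp tendsto_natCast_atTop_atTop)
      exact Filter.eventually_atTop.1 (ht.eventually_ge_atTop 1)
    refine ⟨c, hc, max (max n₀ 1) N1, fun n hn => ?_⟩
    have hn0 : n₀ * 1 ≤ n := by
      rw [mul_one]; exact (le_max_left _ _).trans ((le_max_left _ _).trans hn)
    have hn1' : 1 ≤ n := (le_max_right _ _).trans ((le_max_left _ _).trans hn)
    have hn1 : (1 : ℝ) ≤ (n : ℝ) := by exact_mod_cast hn1'
    have hll := hN1 n ((le_max_right _ _).trans hn)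
    refine ⟨?_, ?_⟩
    · apply Real.rpow_le_rpow_of_exponent_le hn1
      have : c / Real.log (Real.log n) ≤ c := by
        rw [div_le_iff₀ (by linarith)]
        nlinarith
      linarith
    · obtain ⟨X, hX, T, hT, hpos, hgap⟩ := h n 1 le_rfl hn0
      obtain ⟨t, rfl⟩ := Finset.card_eq_one.1 hT
      have ht0 : 0 < t := hpos t (mem_singleton_self t)
      have h1 := a_gap X t ht0 ((n : ℝ) ^ (1 + c)) (by positivity) (by
        intro d hd hdt
        have h2 := hgap t (mem_singleton_self t) d hd (by simpa using hdt)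
        push_cast at h2
        rw [div_one] at h2
        linarith)
      refine h1.trans ?_
      exact_mod_cast hle n X hX

end Pool.Agent.Results.MP_cf6fa9_co.DistanceGap
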